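import Mathlib

set_option autoImplicit false

namespace Pool.Agent.Results.MP_ecbb05_mp.FigureEightAtom

open Filter Topology

/-- A finite metric graph: the edge `e` is the interval `[0, len e]`, glued at `0` to the vertex
`att e false` and at `len e` to the vertex `att e true` (loops are allowed). -/
structure MetricGraph where
  V : Type
  E : Type
  finV : Fintype V
  finE : Fintype E
  decV : DecidableEq V
  att : E → Bool → V
  len : E → ℝ
  len_pos : ∀ e, 0 < len e

attribute [instance] MetricGraph.finV MetricGraph.finE MetricGraph.decV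

/-- The degree of a vertex: the number of ends of edges attached to it. -/
def MetricGraph.degree (G : MetricGraph) (v : G.V) : ℕ :=
  (Finset.univ.filter fun p : G.E × Bool => G.att p.1 p.2 = v).card

/-- The graph is connected. -/
def MetricGraph.Connected (G : MetricGraph) : Prop :=
  Nonempty G.V ∧ ∀ u w : G.V, Relation.EqvGen (fun a b => ∃ e, G.att e false = a ∧ G.att e true = b) u w

/-- The graph is connected, its vertices have degree one or at least three, and the lengths of the
edges are linearly independent over the rationals. -/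
def MetricGraph.Admissible (G : MetricGraph) : Prop :=
  G.Connected ∧ (∀ v, G.degree v = 1 ∨ 3 ≤ G.degree v) ∧ LinearIndependent ℚ G.len

/-- The point of the edge `e` at distance `x` from its end `b`, as a number in `[0, len e]`. -/
def MetricGraph.pt (G : MetricGraph) (e : G.E) (b : Bool) (x : ℝ) : ℝ :=
  if b then G.len e - x else x

/-- The derivative of `f` on `e` at distance `x` from the end `b`, in the direction away from this
end. For `x = 0` this is the outgoing derivative. -/
noncomputable def MetricGraph.outDeriv (G : MetricGraph) (f : G.E → ℝ → ℝ) (e : G.E) (b : Bool)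
    (x : ℝ) : ℝ :=
  if b then -deriv (f e) (G.len e - x) else deriv (f e) x

/-- `f` solves `-f'' = k² f` on the edges (the function on the edge `e` is extended to `ℝ` as a
solution of the equation), is continuous at the vertices, and the outgoing derivatives at each
vertex sum to zero. -/
def MetricGraph.IsSol (G : MetricGraph) (k : ℝ) (f : G.E → ℝ → ℝ) : Prop :=
  (∀ e, Differentiable ℝ (f e) ∧ Differentiable ℝ (deriv (f e)) ∧
    ∀ x, -deriv (deriv (f e)) x = k ^ 2 * f e x) ∧
  (∃ φ : G.V → ℝ, ∀ e b, f e (G.pt e b 0) = φ (G.att e b)) ∧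
  ∀ v, ∑ p : G.E × Bool, (if G.att p.1 p.2 = v then G.outDeriv f p.1 p.2 0 else 0) = 0

/-- `f` is a generic eigenfunction for the eigenvalue `k²`: it is not zero, the eigenvalue is simple,
`f` does not vanish at the vertices, and its outgoing derivatives at the interior vertices (those of
degree at least three) are not zero. -/
def MetricGraph.IsGenericEigenfunction (G : MetricGraph) (k : ℝ) (f : G.E → ℝ → ℝ) : Prop :=
  0 < k ∧ G.IsSol k f ∧ f ≠ 0 ∧ (∀ g, G.IsSol k g → ∃ c : ℝ, g = c • f) ∧
  (∀ e b, f e (G.pt e b 0) ≠ 0) ∧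
  ∀ e b, 3 ≤ G.degree (G.att e b) → G.outDeriv f e b 0 ≠ 0

/-- The set of the numbers `k > 0` such that `k²` is an eigenvalue with a generic
eigenfunction. -/
def MetricGraph.generic (G : MetricGraph) : Set ℝ := {k | ∃ f, G.IsGenericEigenfunction k f}

/-- The wavelength capacity at `v`: `1/π` times the sum, over the ends of edges at `v`, of `k` times
the distance from `v` of the first interior point of the edge where `f'` vanishes. -/
noncomputable def MetricGraph.capacity (G : MetricGraph) (k : ℝ) (f : G.E → ℝ → ℝ) (v : G.V) : ℝ :=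
  1 / Real.pi * ∑ p : G.E × Bool, (if G.att p.1 p.2 = v then
    k * sInf {x : ℝ | 0 < x ∧ x < G.len p.1 ∧ G.outDeriv f p.1 p.2 x = 0} else 0)

/-- The generic wave numbers whose wavelength capacity at `v` is in `(x - ε, x + ε)`. -/
def MetricGraph.near (G : MetricGraph) (v : G.V) (x ε : ℝ) : Set ℝ :=
  {k | ∃ f, G.IsGenericEigenfunction k f ∧ |G.capacity k f v - x| < ε}

/-- The density of `A` relative to the set of the generic wave numbers, counted in increasing
order, is `d`. -/
def MetricGraph.HasDensity (G : MetricGraph) (A : Set ℝ) (d : ℝ) : Prop :=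
  Tendsto (fun K : ℝ => ((A ∩ Set.Iic K).ncard : ℝ) / ((G.generic ∩ Set.Iic K).ncard : ℝ)) atTop
    (𝓝 d)

/-- The figure eight: two loops of lengths `a` and `b` at one vertex. -/
def figureEight (a b : ℝ) (ha : 0 < a) (hb : 0 < b) : MetricGraph where
  V := Unit
  E := Bool
  finV := inferInstance
  finE := inferInstance
  decV := inferInstance
  att := fun _ _ => ()
  len := fun e => if e then b else a
  len_pos := by intro e; cases e <;> simp [ha, hb]

section ode

/-- Solutions of `g'' = -k² g` on the line. -/
theorem ode_sol {g : ℝ → ℝ} {k : ℝ} (hk : 0 < k) (h1 : Differentiable ℝ g)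
    (h2 : Differentiable ℝ (deriv g)) (h3 : ∀ x, -deriv (deriv g) x = k ^ 2 * g x) :
    g = fun x => g 0 * Real.cos (k * x) + deriv g 0 / k * Real.sin (k * x) := by
  have hg : ∀ x, HasDerivAt g (deriv g x) x := fun x => (h1 x).hasDerivAt
  have hg' : ∀ x, HasDerivAt (deriv g) (-(k ^ 2 * g x)) x := by
    intro x
    have := (h2 x).hasDerivAt
    rwa [show deriv (deriv g) x = -(k ^ 2 * g x) by linarith [h3 x]] at this
  -- two first integrals
  have hc : ∀ x, HasDerivAt (fun x => Real.cos (k * x)) (-(k * Real.sin (k * x))) x := by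
    intro x
    have := (Real.hasDerivAt_cos (k * x)).comp x ((hasDerivAt_id' x).const_mul k)
    exact this.congr_deriv (by ring)
  have hs : ∀ x, HasDerivAt (fun x => Real.sin (k * x)) (k * Real.cos (k * x)) x := by
    intro x
    have := (Real.hasDerivAt_sin (k * x)).comp x ((hasDerivAt_id' x).const_mul k)
    exact this.congr_deriv (by ring)
  have hu : ∀ x, HasDerivAt (fun x => k * g x * Real.cos (k * x) - deriv g x * Real.sin (k * x)) 0 x := by
    intro x
    have := (((hg x).const_mul k).mul (hc x)).sub ((hg' x).mul (hs x))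
    exact this.congr_deriv (by ring)
  have hv : ∀ x, HasDerivAt (fun x => k * g x * Real.sin (k * x) + deriv g x * Real.cos (k * x)) 0 x := by
    intro x
    have := (((hg x).const_mul k).mul (hs x)).add ((hg' x).mul (hc x))
    exact this.congr_deriv (by ring)
  have hu0 : ∀ x, k * g x * Real.cos (k * x) - deriv g x * Real.sin (k * x) = k * g 0 := by
    intro x
    have := is_const_of_deriv_eq_zero (fun y => (hu y).differentiableAt) (fun y => (hu y).deriv) x 0
    simpa using this
  have hv0 : ∀ x, k * g x * Real.sin (k * x) + deriv g x * Real.cos (k * x) = deriv g 0 := by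
    intro x
    have := is_const_of_deriv_eq_zero (fun y => (hv y).differentiableAt) (fun y => (hv y).deriv) x 0
    simpa using this
  funext x
  have e1 := hu0 x
  have e2 := hv0 x
  have e3 := Real.sin_sq_add_cos_sq (k * x)
  have : k * g x = k * (g 0 * Real.cos (k * x) + deriv g 0 / k * Real.sin (k * x)) := by
    rw [mul_add, ← mul_assoc, ← mul_assoc, mul_div_cancel₀ _ hk.ne', ← e1, ← e2]
    linear_combination (-(k * g x)) * e3
  exact mul_left_cancel₀ hk.ne' this

/-- The derivative of such a function. -/
theorem deriv_form (A B k x : ℝ) :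
    deriv (fun x => A * Real.cos (k * x) + B * Real.sin (k * x)) x =
      -(A * k * Real.sin (k * x)) + B * k * Real.cos (k * x) := by
  have hc : HasDerivAt (fun x => Real.cos (k * x)) (-(k * Real.sin (k * x))) x := by
    have := (Real.hasDerivAt_cos (k * x)).comp x ((hasDerivAt_id' x).const_mul k)
    exact this.congr_deriv (by ring)
  have hs : HasDerivAt (fun x => Real.sin (k * x)) (k * Real.cos (k * x)) x := by
    have := (Real.hasDerivAt_sin (k * x)).comp x ((hasDerivAt_id' x).const_mul k)
    exact this.congr_deriv (by ring)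
  have := ((hc.const_mul A).add (hs.const_mul B)).deriv
  rw [show (fun x => A * Real.cos (k * x) + B * Real.sin (k * x)) =
    (fun x => A * Real.cos (k * x)) + fun x => B * Real.sin (k * x) from rfl]
  rw [this]; ring

end ode

section eight

variable {a b : ℝ} (ha : 0 < a) (hb : 0 < b)

/-- the lengths of the loops -/
def ell (a b : ℝ) (e : Bool) : ℝ := if e then b else a

theorem ell_pos (ha : 0 < a) (hb : 0 < b) (e : Bool) : 0 < ell a b e := by
  cases e <;> simp [ell, ha, hb]

theorem sol_iff {k : ℝ} (hk : 0 < k) (f : Bool → ℝ → ℝ) :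
    (figureEight a b ha hb).IsSol k f ↔ ∃ (φ : ℝ) (B : Bool → ℝ),
      (f = fun e x => φ * Real.cos (k * x) + B e * Real.sin (k * x)) ∧
      (∀ e, φ * Real.cos (k * ell a b e) + B e * Real.sin (k * ell a b e) = φ) ∧
      ∑ e, (B e * (1 - Real.cos (k * ell a b e)) + φ * Real.sin (k * ell a b e)) = 0 := by
  have hform : ∀ (φ : ℝ) (B : Bool → ℝ) (v : (figureEight a b ha hb).V),
      (∑ p : (figureEight a b ha hb).E × Bool, (if (figureEight a b ha hb).att p.1 p.2 = v then
        (figureEight a b ha hb).outDeriv
          (fun e x => φ * Real.cos (k * x) + B e * Real.sin (k * x)) p.1 p.2 0 else 0)) =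
      k * ∑ e, (B e * (1 - Real.cos (k * ell a b e)) + φ * Real.sin (k * ell a b e)) := by
    intro φ B v
    rw [Fintype.sum_prod_type, Finset.mul_sum]
    apply Finset.sum_congr rfl
    intro e _
    rw [Fintype.sum_bool]
    have h1 : (figureEight a b ha hb).outDeriv
          (fun e x => φ * Real.cos (k * x) + B e * Real.sin (k * x)) e true 0 =
        -(-(φ * k * Real.sin (k * ell a b e)) + B e * k * Real.cos (k * ell a b e)) := by
      unfold MetricGraph.outDeriv
      rw [if_pos rfl, sub_zero, deriv_form]
      rfl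
    have h2 : (figureEight a b ha hb).outDeriv
          (fun e x => φ * Real.cos (k * x) + B e * Real.sin (k * x)) e false 0 = B e * k := by
      unfold MetricGraph.outDeriv
      rw [if_neg (by simp), deriv_form]
      simp
    have h3 : ∀ c, (figureEight a b ha hb).att e c = v := fun c => rfl
    rw [if_pos (h3 _), if_pos (h3 _), h1, h2]
    ring
  constructor
  · rintro ⟨h1, ⟨φ, h2⟩, h3⟩
    have hf : ∀ e, f e = fun x => f e 0 * Real.cos (k * x) + deriv (f e) 0 / k * Real.sin (k * x) :=
      fun e => ode_sol hk (h1 e).1 (h1 e).2.1 (h1 e).2.2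
    have h0 : ∀ e, f e 0 = φ () := by
      intro e
      have := h2 e false
      simpa [MetricGraph.pt, figureEight] using this
    have hf' : f = fun e x => φ () * Real.cos (k * x) + (deriv (f e) 0 / k) * Real.sin (k * x) := by
      funext e x
      rw [← h0 e]
      exact congrFun (hf e) x
    refine ⟨φ (), fun e => deriv (f e) 0 / k, hf', ?_, ?_⟩
    · intro e
      have := h2 e true
      have e1 : f e (ell a b e) = φ () := by
        simpa [MetricGraph.pt, figureEight, ell] using this
      have e2 := congrFun (congrFun hf' e) (ell a b e)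
      rw [e1] at e2
      exact e2.symm
    · have h4 := h3 ()
      rw [hf'] at h4
      have h5 := (hform (φ ()) (fun e => deriv (f e) 0 / k) ()).symm.trans h4
      exact (mul_eq_zero.mp h5).resolve_left hk.ne'
  · rintro ⟨φ, B, rfl, h2, h3⟩
    have hd : ∀ e x, HasDerivAt (fun x => φ * Real.cos (k * x) + B e * Real.sin (k * x))
        (-(φ * k * Real.sin (k * x)) + B e * k * Real.cos (k * x)) x := by
      intro e x
      have hc : HasDerivAt (fun x => Real.cos (k * x)) (-(k * Real.sin (k * x))) x := by
        have := (Real.hasDerivAt_cos (k * x)).comp x ((hasDerivAt_id' x).const_mul k)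
        exact this.congr_deriv (by ring)
      have hs : HasDerivAt (fun x => Real.sin (k * x)) (k * Real.cos (k * x)) x := by
        have := (Real.hasDerivAt_sin (k * x)).comp x ((hasDerivAt_id' x).const_mul k)
        exact this.congr_deriv (by ring)
      exact ((hc.const_mul φ).add (hs.const_mul (B e))).congr_deriv (by ring)
    have hd1 : ∀ e, deriv (fun x => φ * Real.cos (k * x) + B e * Real.sin (k * x)) =
        fun x => (B e * k) * Real.cos (k * x) + (-(φ * k)) * Real.sin (k * x) := by
      intro e
      funext x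
      rw [(hd e x).deriv]; ring
    refine ⟨fun e => ⟨fun x => (hd e x).differentiableAt, ?_, ?_⟩, ⟨fun _ => φ, ?_⟩, ?_⟩
    · rw [hd1 e]
      fun_prop
    · intro x
      rw [hd1 e, deriv_form]; ring
    · intro e c
      cases c
      · simp [MetricGraph.pt]
      · have := h2 e
        simpa [MetricGraph.pt, figureEight, ell] using this
    · intro v
      exact (hform φ B v).trans (by rw [h3, mul_zero])

/-- the half phase -/
noncomputable def th (a b k : ℝ) (e : Bool) : ℝ := k * ell a b e / 2

theorem gen_data {k : ℝ} {f : Bool → ℝ → ℝ}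
    (h : (figureEight a b ha hb).IsGenericEigenfunction k f) :
    (∀ e, Real.sin (th a b k e) ≠ 0) ∧ (∀ e, Real.cos (th a b k e) ≠ 0) ∧
    Real.tan (th a b k false) + Real.tan (th a b k true) = 0 ∧
    ∃ φ : ℝ, φ ≠ 0 ∧ f = fun e x =>
      φ * Real.cos (k * x) + (φ * Real.tan (th a b k e)) * Real.sin (k * x) := by
  obtain ⟨hk, hsol, hne, huniq, hv, -⟩ := h
  obtain ⟨φ, B, hf, h2, h3⟩ := (sol_iff ha hb hk f).mp hsol
  have hφ : φ ≠ 0 := by
    have := hv false false
    rw [hf] at this
    simpa [MetricGraph.pt] using this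
  have hdouble : ∀ e, k * ell a b e = 2 * th a b k e := by intro e; unfold th; ring
  have hsin : ∀ e, Real.sin (th a b k e) ≠ 0 := by
    intro e0 h0
    have hcos : Real.cos (k * ell a b e0) = 1 := by
      rw [hdouble, Real.cos_two_mul, ← Real.sin_sq_add_cos_sq (th a b k e0), h0]
      nlinarith [Real.sin_sq_add_cos_sq (th a b k e0)]
    have hs0 : Real.sin (k * ell a b e0) = 0 := by
      rw [hdouble, Real.sin_two_mul, h0]; ring
    have hg : (figureEight a b ha hb).IsSol k
        (fun (e : Bool) x => 0 * Real.cos (k * x) + (if e = e0 then 1 else 0) * Real.sin (k * x)) := by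
      rw [sol_iff ha hb hk]
      refine ⟨0, fun e => if e = e0 then 1 else 0, rfl, ?_, ?_⟩
      · intro e
        by_cases he : e = e0
        · subst he; simp [hs0]
        · simp [he]
      · apply Finset.sum_eq_zero
        intro e _
        by_cases he : e = e0
        · subst he; simp [hcos]
        · simp [he]
    obtain ⟨c, hc⟩ := huniq _ hg
    have e1 := congrFun (congrFun hc e0) 0
    have e2 : c = 0 := by
      rw [hf] at e1
      have e1' : (0 : ℝ) * Real.cos (k * 0) + (if e0 = e0 then 1 else 0) * Real.sin (k * 0) =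
        c * (φ * Real.cos (k * 0) + B e0 * Real.sin (k * 0)) := e1
      simp [hφ] at e1'
      exact e1'
    have e3 := congrFun (congrFun hc e0) (Real.pi / 2 / k)
    have e4 : k * (Real.pi / 2 / k) = Real.pi / 2 := by field_simp
    have e3' : (0 : ℝ) * Real.cos (k * (Real.pi / 2 / k)) +
        (if e0 = e0 then 1 else 0) * Real.sin (k * (Real.pi / 2 / k)) =
        c * f e0 (Real.pi / 2 / k) := e3
    rw [e2, e4] at e3'
    simp at e3'
  have hcos : ∀ e, Real.cos (th a b k e) ≠ 0 := by
    intro e h0
    have h4 := h2 e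
    rw [hdouble, Real.cos_two_mul, Real.sin_two_mul, h0] at h4
    have : φ = 0 := by linarith
    exact hφ this
  have hB : ∀ e, B e = φ * Real.tan (th a b k e) := by
    intro e
    have h4 := h2 e
    rw [hdouble, Real.cos_two_mul', Real.sin_two_mul] at h4
    have h5 := Real.sin_sq_add_cos_sq (th a b k e)
    rw [Real.tan_eq_sin_div_cos]
    have h6 : Real.sin (th a b k e) * (B e * Real.cos (th a b k e) - φ * Real.sin (th a b k e)) = 0 := by
      linear_combination (1 / 2) * h4 - (φ / 2) * h5
    have h7 := (mul_eq_zero.mp h6).resolve_left (hsin e)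
    field_simp [hcos e]
    linarith
  refine ⟨hsin, hcos, ?_, φ, hφ, ?_⟩
  · have hterm : ∀ e, B e * (1 - Real.cos (k * ell a b e)) + φ * Real.sin (k * ell a b e) =
        2 * φ * Real.tan (th a b k e) := by
      intro e
      rw [hB e, hdouble, Real.cos_two_mul', Real.sin_two_mul, Real.tan_eq_sin_div_cos]
      have h5 := Real.sin_sq_add_cos_sq (th a b k e)
      field_simp [hcos e]
      linear_combination (-Real.sin (th a b k e)  ) * h5 + 2 * Real.sin (th a b k e) * h5
    rw [Fintype.sum_bool, hterm, hterm] at h3
    have : 2 * φ * (Real.tan (th a b k false) + Real.tan (th a b k true)) = 0 := by linarith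
    exact (mul_eq_zero.mp this).resolve_left (by simp [hφ])
  · rw [hf]
    funext e x
    rw [hB e]

theorem deriv_phase {k φ θ : ℝ} (hc : Real.cos θ ≠ 0) (x : ℝ) :
    deriv (fun x => φ * Real.cos (k * x) + (φ * Real.tan θ) * Real.sin (k * x)) x =
      -(k * φ / Real.cos θ) * Real.sin (k * x - θ) := by
  rw [deriv_form, Real.sin_sub, Real.tan_eq_sin_div_cos]
  field_simp
  ring

/-- the first zero of the phase -/
theorem sInf_phase {k l θ : ℝ} (hk : 0 < k) (hl : 0 < l) (hθ : θ = k * l / 2)
    (hs : Real.sin θ ≠ 0) :
    sInf {x : ℝ | 0 < x ∧ x < l ∧ Real.sin (k * x - θ) = 0} = Real.pi * Int.fract (θ / Real.pi) / k := by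
  have hpi := Real.pi_pos
  have hfl : Int.fract (θ / Real.pi) = θ / Real.pi - ⌊θ / Real.pi⌋ := Int.fract.eq_1 _
  have hfr : Real.pi * Int.fract (θ / Real.pi) = θ - ⌊θ / Real.pi⌋ * Real.pi := by
    rw [hfl]; field_simp
  have hpos : 0 < Int.fract (θ / Real.pi) := by
    apply Int.fract_pos.mpr
    intro h
    apply hs
    have : θ = (⌊θ / Real.pi⌋ : ℝ) * Real.pi := by
      rw [← h]; field_simp
    rw [this]
    exact Real.sin_int_mul_pi _
  have hθpos : 0 < θ := by rw [hθ]; positivity
  have hmem : Real.pi * Int.fract (θ / Real.pi) / k ∈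
      {x : ℝ | 0 < x ∧ x < l ∧ Real.sin (k * x - θ) = 0} := by
    refine ⟨by positivity, ?_, ?_⟩
    · have h1 : Int.fract (θ / Real.pi) ≤ θ / Real.pi := by
        rw [hfl]
        have : (0 : ℤ) ≤ ⌊θ / Real.pi⌋ := Int.floor_nonneg.mpr (by positivity)
        have : (0 : ℝ) ≤ ⌊θ / Real.pi⌋ := by exact_mod_cast this
        linarith
      have h2 : Real.pi * Int.fract (θ / Real.pi) ≤ θ := by
        calc Real.pi * Int.fract (θ / Real.pi) ≤ Real.pi * (θ / Real.pi) := by gcongr
          _ = θ := by field_simp
      rw [div_lt_iff₀ hk]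
      have : θ < k * l := by rw [hθ]; have : 0 < k * l := by positivity
                             linarith
      linarith
    · have : k * (Real.pi * Int.fract (θ / Real.pi) / k) - θ = ((-⌊θ / Real.pi⌋ : ℤ) : ℝ) * Real.pi := by
        rw [mul_div_cancel₀ _ hk.ne', hfr]; push_cast; ring
      rw [this]
      exact Real.sin_int_mul_pi _
  apply le_antisymm
  · exact csInf_le ⟨0, fun x hx => hx.1.le⟩ hmem
  · apply le_csInf ⟨_, hmem⟩
    rintro x ⟨hx0, -, hx⟩
    rw [Real.sin_eq_zero_iff] at hx
    obtain ⟨n, hn⟩ := hx
    rw [div_le_iff₀ hk]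
    have h1 : Int.fract (θ / Real.pi) = Int.fract (k * x / Real.pi) := by
      rw [Int.fract_eq_fract]
      refine ⟨-n, ?_⟩
      push_cast
      field_simp
      linarith
    rw [h1]
    have h2 : Int.fract (k * x / Real.pi) ≤ k * x / Real.pi := by
      have : (0 : ℤ) ≤ ⌊k * x / Real.pi⌋ := Int.floor_nonneg.mpr (by positivity)
      have h3 : (0 : ℝ) ≤ ⌊k * x / Real.pi⌋ := by exact_mod_cast this
      rw [Int.fract.eq_1]
      linarith
    calc Real.pi * Int.fract (k * x / Real.pi) ≤ Real.pi * (k * x / Real.pi) := by gcongr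
      _ = x * k := by field_simp

/-- All generic eigenfunctions of the figure eight have wavelength capacity two. -/
theorem capacity_eq {k : ℝ} {f : Bool → ℝ → ℝ}
    (h : (figureEight a b ha hb).IsGenericEigenfunction k f) (v : (figureEight a b ha hb).V) :
    (figureEight a b ha hb).capacity k f v = 2 := by
  obtain ⟨hsin, hcos, htan, φ, hφ, hf⟩ := gen_data ha hb h
  have hk : 0 < k := h.1
  have hpi := Real.pi_pos
  have hset : ∀ (e c : Bool), {x : ℝ | 0 < x ∧ x < (figureEight a b ha hb).len e ∧
      (figureEight a b ha hb).outDeriv f e c x = 0} =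
      {x : ℝ | 0 < x ∧ x < ell a b e ∧ Real.sin (k * x - th a b k e) = 0} := by
    intro e c
    have hco : k * φ / Real.cos (th a b k e) ≠ 0 := div_ne_zero (mul_ne_zero hk.ne' hφ) (hcos e)
    ext x
    constructor
    · rintro ⟨h1, h2, h3⟩
      refine ⟨h1, h2, ?_⟩
      unfold MetricGraph.outDeriv at h3
      rw [hf] at h3
      cases c
      · rw [if_neg (by simp), deriv_phase (hcos e)] at h3
        exact (mul_eq_zero.mp h3).resolve_left (neg_ne_zero.mpr hco)
      · rw [if_pos rfl, deriv_phase (hcos e), neg_eq_zero] at h3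
        have h4 := (mul_eq_zero.mp h3).resolve_left (neg_ne_zero.mpr hco)
        have h5 : k * ((figureEight a b ha hb).len e - x) - th a b k e = -(k * x - th a b k e) := by
          show k * (ell a b e - x) - th a b k e = _
          unfold th; ring
        rw [h5, Real.sin_neg, neg_eq_zero] at h4
        exact h4
    · rintro ⟨h1, h2, h3⟩
      refine ⟨h1, h2, ?_⟩
      unfold MetricGraph.outDeriv
      rw [hf]
      cases c
      · rw [if_neg (by simp), deriv_phase (hcos e), h3, mul_zero]
      · rw [if_pos rfl, deriv_phase (hcos e)]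
        have h5 : k * ((figureEight a b ha hb).len e - x) - th a b k e = -(k * x - th a b k e) := by
          show k * (ell a b e - x) - th a b k e = _
          unfold th; ring
        rw [h5, Real.sin_neg, h3]; ring
  have hval : ∀ (e c : Bool), sInf {x : ℝ | 0 < x ∧ x < (figureEight a b ha hb).len e ∧
      (figureEight a b ha hb).outDeriv f e c x = 0} =
      Real.pi * Int.fract (th a b k e / Real.pi) / k := by
    intro e c
    exact (congrArg sInf (hset e c)).trans (sInf_phase hk (ell_pos ha hb e) rfl (hsin e))
  unfold MetricGraph.capacity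
  have hsum : (∑ p : (figureEight a b ha hb).E × Bool, (if (figureEight a b ha hb).att p.1 p.2 = v then
      k * sInf {x : ℝ | 0 < x ∧ x < (figureEight a b ha hb).len p.1 ∧
        (figureEight a b ha hb).outDeriv f p.1 p.2 x = 0} else 0)) =
      2 * Real.pi * (Int.fract (th a b k false / Real.pi) + Int.fract (th a b k true / Real.pi)) := by
    have h1 : ∀ p : (figureEight a b ha hb).E × Bool,
        (if (figureEight a b ha hb).att p.1 p.2 = v then
        k * sInf {x : ℝ | 0 < x ∧ x < (figureEight a b ha hb).len p.1 ∧
        (figureEight a b ha hb).outDeriv f p.1 p.2 x = 0} else 0) =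
        Real.pi * Int.fract (th a b k p.1 / Real.pi) := by
      intro p
      refine (if_pos rfl).trans ?_
      refine (congrArg (fun t => k * t) (hval p.1 p.2)).trans ?_
      exact mul_div_cancel₀ _ hk.ne'
    rw [Finset.sum_congr rfl (fun p _ => h1 p), Fintype.sum_prod_type]
    show ∑ x : Bool, ∑ y : Bool, Real.pi * Int.fract (th a b k x / Real.pi) = _
    simp only [Fintype.sum_bool]
    ring
  rw [hsum]
  have hfr : Int.fract (th a b k false / Real.pi) + Int.fract (th a b k true / Real.pi) = 1 := by
    have h1 : Real.sin (th a b k false + th a b k true) = 0 := by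
      rw [Real.sin_add]
      rw [Real.tan_eq_sin_div_cos, Real.tan_eq_sin_div_cos] at htan
      have h0 := hcos false
      have h0' := hcos true
      field_simp at htan
      linarith
    rw [Real.sin_eq_zero_iff] at h1
    obtain ⟨n, hn⟩ := h1
    have h2 : th a b k false / Real.pi + th a b k true / Real.pi = n := by
      rw [← add_div, ← hn]; field_simp
    have hne : ∀ e, 0 < Int.fract (th a b k e / Real.pi) := by
      intro e
      apply Int.fract_pos.mpr
      intro h
      apply hsin e
      have : th a b k e = (⌊th a b k e / Real.pi⌋ : ℝ) * Real.pi := by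
        rw [← h]; field_simp
      rw [this]
      exact Real.sin_int_mul_pi _
    have h3 : Int.fract (th a b k false / Real.pi) + Int.fract (th a b k true / Real.pi) =
        ((n - ⌊th a b k false / Real.pi⌋ - ⌊th a b k true / Real.pi⌋ : ℤ) : ℝ) := by
      rw [Int.fract.eq_1, Int.fract.eq_1]; push_cast; linarith
    have h4 : (0 : ℝ) < ((n - ⌊th a b k false / Real.pi⌋ - ⌊th a b k true / Real.pi⌋ : ℤ) : ℝ) := by
      rw [← h3]; have := hne false; have := hne true; linarith
    have h5 : ((n - ⌊th a b k false / Real.pi⌋ - ⌊th a b k true / Real.pi⌋ : ℤ) : ℝ) < 2 := by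
      rw [← h3]
      have := Int.fract_lt_one (th a b k false / Real.pi)
      have := Int.fract_lt_one (th a b k true / Real.pi)
      linarith
    have h6 : (0 : ℤ) < n - ⌊th a b k false / Real.pi⌋ - ⌊th a b k true / Real.pi⌋ := by exact_mod_cast h4
    have h7 : n - ⌊th a b k false / Real.pi⌋ - ⌊th a b k true / Real.pi⌋ < (2 : ℤ) := by exact_mod_cast h5
    rw [h3]
    have : n - ⌊th a b k false / Real.pi⌋ - ⌊th a b k true / Real.pi⌋ = 1 := by omega
    rw [this]; simp
  rw [hfr]
  field_simp

/-- The generic wave numbers are multiples of `2π / (a + b)`. -/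
theorem generic_sub {k : ℝ} (h : k ∈ (figureEight a b ha hb).generic) :
    ∃ m : ℕ, k = 2 * Real.pi * m / (a + b) := by
  obtain ⟨f, hf⟩ := h
  obtain ⟨hsin, hcos, htan, -⟩ := gen_data ha hb hf
  have hk : 0 < k := hf.1
  have h1 : Real.sin (th a b k false + th a b k true) = 0 := by
    rw [Real.sin_add]
    rw [Real.tan_eq_sin_div_cos, Real.tan_eq_sin_div_cos] at htan
    have h0 := hcos false
    have h0' := hcos true
    field_simp at htan
    linarith
  rw [Real.sin_eq_zero_iff] at h1
  obtain ⟨n, hn⟩ := h1
  have h2 : th a b k false + th a b k true = k * (a + b) / 2 := by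
    unfold th ell; simp; ring
  rw [h2] at hn
  have hab : 0 < a + b := by linarith
  have hpi := Real.pi_pos
  have hn0 : 0 ≤ n := by
    by_contra hneg
    push Not at hneg
    have h3 : (n : ℝ) < 0 := by exact_mod_cast hneg
    have : (n : ℝ) * Real.pi < 0 := mul_neg_of_neg_of_pos h3 hpi
    have : 0 < k * (a + b) / 2 := by positivity
    linarith
  refine ⟨n.toNat, ?_⟩
  have h4 : ((n.toNat : ℕ) : ℝ) = n := by
    have : ((n.toNat : ℕ) : ℤ) = n := Int.toNat_of_nonneg hn0
    exact_mod_cast this
  rw [h4, eq_div_iff hab.ne']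
  linarith

/-- For rationally independent lengths all the positive multiples are generic. -/
theorem generic_mem (hli : ∀ p q : ℤ, (p : ℝ) * a + q * b = 0 → p = 0 ∧ q = 0) {m : ℕ}
    (hm : 0 < m) : 2 * Real.pi * m / (a + b) ∈ (figureEight a b ha hb).generic := by
  have hab : 0 < a + b := by linarith
  have hpi := Real.pi_pos
  have hm' : (0 : ℝ) < m := by exact_mod_cast hm
  obtain ⟨k, hkdef⟩ : ∃ k, k = 2 * Real.pi * m / (a + b) := ⟨_, rfl⟩
  rw [← hkdef]
  have hk : 0 < k := by rw [hkdef]; positivity
  have hsum : th a b k false + th a b k true = m * Real.pi := by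
    unfold th ell; simp; rw [hkdef]; field_simp
  have hkab : k * (a + b) = 2 * Real.pi * m := by rw [hkdef]; field_simp
  have hsinF : Real.sin (th a b k false) ≠ 0 := by
    intro h
    rw [Real.sin_eq_zero_iff] at h
    obtain ⟨n, hn⟩ := h
    -- m a = n (a + b)
    have h1 : (m : ℝ) * a = n * (a + b) := by
      have e1 : k * a = 2 * (n * Real.pi) := by
        rw [hn]; unfold th ell; simp; ring
      have e2 : k * a * (a + b) = 2 * Real.pi * (m * a) := by
        rw [mul_assoc, mul_comm a (a + b), ← mul_assoc, hkab]; ring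
      have e3 : 2 * Real.pi * (m * a) = 2 * Real.pi * (n * (a + b)) := by
        rw [← e2, e1]; ring
      exact mul_left_cancel₀ (by positivity) e3
    have h2 := hli (m - n) (-n) (by push_cast; linarith)
    omega
  have hcosF : Real.cos (th a b k false) ≠ 0 := by
    intro h
    rw [Real.cos_eq_zero_iff] at h
    obtain ⟨n, hn⟩ := h
    have h1 : 2 * (m : ℝ) * a = (2 * n + 1) * (a + b) := by
      have e1 : k * a = (2 * n + 1) * Real.pi := by
        have : k * a = 2 * th a b k false := by unfold th ell; simp; ring
        rw [this, hn]; ring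
      have e2 : k * a * (a + b) = 2 * Real.pi * (m * a) := by
        rw [mul_assoc, mul_comm a (a + b), ← mul_assoc, hkab]; ring
      have e3 : Real.pi * (2 * (m : ℝ) * a) = Real.pi * ((2 * n + 1) * (a + b)) := by
        have : Real.pi * (2 * (m : ℝ) * a) = 2 * Real.pi * (m * a) := by ring
        rw [this, ← e2, e1]; ring
      exact mul_left_cancel₀ hpi.ne' e3
    have h2 := hli (2 * m - (2 * n + 1)) (-(2 * n + 1)) (by push_cast; linarith)
    omega
  have hT : th a b k true = m * Real.pi - th a b k false := by linarith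
  have hsinm : Real.sin ((m : ℝ) * Real.pi) = 0 := Real.sin_nat_mul_pi m
  have hcosm : Real.cos ((m : ℝ) * Real.pi) ≠ 0 := by
    intro h
    have := Real.sin_sq_add_cos_sq ((m : ℝ) * Real.pi)
    rw [h, hsinm] at this
    norm_num at this
  have hsinT : Real.sin (th a b k true) ≠ 0 := by
    rw [hT, Real.sin_sub, hsinm]
    have := mul_ne_zero hcosm hsinF
    intro h; apply this; linarith
  have hcosT : Real.cos (th a b k true) ≠ 0 := by
    rw [hT, Real.cos_sub, hsinm]
    have := mul_ne_zero hcosm hcosF
    intro h; apply this; linarith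
  have hsin : ∀ e, Real.sin (th a b k e) ≠ 0 := by intro e; cases e <;> assumption
  have hcos : ∀ e, Real.cos (th a b k e) ≠ 0 := by intro e; cases e <;> assumption
  have htan : Real.tan (th a b k false) + Real.tan (th a b k true) = 0 := by
    have h1 : Real.sin (th a b k false + th a b k true) = 0 := by rw [hsum, hsinm]
    rw [Real.sin_add] at h1
    rw [Real.tan_eq_sin_div_cos, Real.tan_eq_sin_div_cos]
    have h0 := hcos false
    have h0' := hcos true
    field_simp
    linarith
  have hdouble : ∀ e, k * ell a b e = 2 * th a b k e := by intro e; unfold th; ring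
  have hB : ∀ (φ : ℝ) (B : Bool → ℝ), (∀ e, φ * Real.cos (k * ell a b e) +
      B e * Real.sin (k * ell a b e) = φ) → ∀ e, B e = φ * Real.tan (th a b k e) := by
    intro φ B h2 e
    have h4 := h2 e
    rw [hdouble, Real.cos_two_mul', Real.sin_two_mul] at h4
    have h5 := Real.sin_sq_add_cos_sq (th a b k e)
    rw [Real.tan_eq_sin_div_cos]
    have h6 : Real.sin (th a b k e) * (B e * Real.cos (th a b k e) - φ * Real.sin (th a b k e)) = 0 := by
      linear_combination (1 / 2) * h4 - (φ / 2) * h5
    have h7 := (mul_eq_zero.mp h6).resolve_left (hsin e)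
    field_simp [hcos e]
    linarith
  refine ⟨fun e x => 1 * Real.cos (k * x) + Real.tan (th a b k e) * Real.sin (k * x), hk, ?_, ?_, ?_,
    ?_, ?_⟩
  · refine (sol_iff ha hb hk _).mpr ?_
    refine ⟨1, fun e => Real.tan (th a b k e), rfl, ?_, ?_⟩
    · intro e
      show 1 * Real.cos (k * ell a b e) + Real.tan (th a b k e) * Real.sin (k * ell a b e) = 1
      rw [hdouble, Real.cos_two_mul', Real.sin_two_mul, Real.tan_eq_sin_div_cos]
      have h5 := Real.sin_sq_add_cos_sq (th a b k e)
      have h0 := hcos e
      field_simp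
      linarith
    · have hterm : ∀ e, Real.tan (th a b k e) * (1 - Real.cos (k * ell a b e)) +
          1 * Real.sin (k * ell a b e) = 2 * Real.tan (th a b k e) := by
        intro e
        rw [hdouble, Real.cos_two_mul', Real.sin_two_mul, Real.tan_eq_sin_div_cos]
        have h5 := Real.sin_sq_add_cos_sq (th a b k e)
        field_simp [hcos e]
        linear_combination (Real.sin (th a b k e)) * h5
      rw [Fintype.sum_bool, hterm, hterm]
      linarith
  · intro h
    have h' : (1 : ℝ) * Real.cos (k * 0) + Real.tan (th a b k true) * Real.sin (k * 0) = 0 :=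
      congrFun (congrFun h true) 0
    simp at h'
  · intro g hg
    obtain ⟨φ, B, hgf, h2, -⟩ := (sol_iff ha hb hk g).mp hg
    refine ⟨φ, ?_⟩
    rw [hgf]
    funext e x
    rw [hB φ B h2 e]
    show _ = φ * (1 * Real.cos (k * x) + Real.tan (th a b k e) * Real.sin (k * x))
    ring
  · intro e c
    change Bool at e
    have hval : ∀ e, 1 * Real.cos (k * ell a b e) + Real.tan (th a b k e) * Real.sin (k * ell a b e) = 1 := by
      intro e
      rw [hdouble, Real.cos_two_mul', Real.sin_two_mul, Real.tan_eq_sin_div_cos]
      have h5 := Real.sin_sq_add_cos_sq (th a b k e)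
      have h0 := hcos e
      field_simp
      linarith
    cases c
    · simp [MetricGraph.pt]
    · have : (figureEight a b ha hb).pt e true 0 = ell a b e := by
        simp [MetricGraph.pt, figureEight, ell]
      rw [this]
      show (1 : ℝ) * Real.cos (k * ell a b e) + Real.tan (th a b k e) * Real.sin (k * ell a b e) ≠ 0
      rw [hval e]
      exact one_ne_zero
  · intro e c _
    change Bool at e
    have htne : Real.tan (th a b k e) ≠ 0 := by
      rw [Real.tan_eq_sin_div_cos]
      exact div_ne_zero (hsin e) (hcos e)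
    unfold MetricGraph.outDeriv
    cases c
    · rw [if_neg (by simp), deriv_form]
      simp [hk.ne', htne]
    · rw [if_pos rfl, sub_zero, deriv_form]
      show -(-(1 * k * Real.sin (k * ell a b e)) + Real.tan (th a b k e) * k *
        Real.cos (k * ell a b e)) ≠ 0
      rw [hdouble, Real.cos_two_mul', Real.sin_two_mul]
      have h5 := Real.sin_sq_add_cos_sq (th a b k e)
      have h6 : -(-(1 * k * (2 * Real.sin (th a b k e) * Real.cos (th a b k e))) +
          Real.tan (th a b k e) * k * (Real.cos (th a b k e) ^ 2 - Real.sin (th a b k e) ^ 2)) =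
          k * Real.tan (th a b k e) := by
        rw [Real.tan_eq_sin_div_cos]
        field_simp [hcos e]
        linear_combination (Real.sin (th a b k e)) * h5
      rw [h6]
      exact mul_ne_zero hk.ne' htne

theorem degree_eq (v : (figureEight a b ha hb).V) : (figureEight a b ha hb).degree v = 4 := by
  unfold MetricGraph.degree
  have : (Finset.univ.filter fun p : (figureEight a b ha hb).E × Bool =>
      (figureEight a b ha hb).att p.1 p.2 = v) = Finset.univ :=
    Finset.filter_true_of_mem fun p _ => rfl
  rw [this]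
  rfl

theorem hli_of (h : LinearIndependent ℚ (figureEight a b ha hb).len) (p q : ℤ)
    (hpq : (p : ℝ) * a + q * b = 0) : p = 0 ∧ q = 0 := by
  have h1 : ∀ g : Bool → ℚ, ∑ i, g i • (figureEight a b ha hb).len i = 0 → ∀ i, g i = 0 :=
    Fintype.linearIndependent_iff.mp h
  have h2 := h1 (fun i => if i then (q : ℚ) else (p : ℚ)) (by
    rw [Fintype.sum_bool]
    show ((q : ℚ) • b + (p : ℚ) • a : ℝ) = 0
    rw [Rat.smul_def, Rat.smul_def]
    push_cast
    linarith)
  have h3 := h2 true
  have h4 := h2 false
  simp at h3 h4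
  exact ⟨h4, h3⟩

theorem generic_finite (K : ℝ) : ((figureEight a b ha hb).generic ∩ Set.Iic K).Finite := by
  have hab : 0 < a + b := by linarith
  have hpi := Real.pi_pos
  obtain ⟨M, hM⟩ := exists_nat_gt (K * (a + b) / (2 * Real.pi))
  apply Set.Finite.subset ((Set.finite_Iio M).image (fun m : ℕ => 2 * Real.pi * m / (a + b)))
  rintro k ⟨hk, hkK⟩
  obtain ⟨m, rfl⟩ := generic_sub ha hb hk
  refine ⟨m, ?_, rfl⟩
  have h1 : 2 * Real.pi * m / (a + b) ≤ K := hkK
  have h2 : (m : ℝ) ≤ K * (a + b) / (2 * Real.pi) := by
    rw [div_le_iff₀ hab] at h1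
    rw [le_div_iff₀ (by positivity)]
    linarith
  have h3 : (m : ℝ) < M := lt_of_le_of_lt h2 hM
  exact_mod_cast h3

theorem generic_infinite (h : LinearIndependent ℚ (figureEight a b ha hb).len) :
    (figureEight a b ha hb).generic.Infinite := by
  have hab : 0 < a + b := by linarith
  have hpi := Real.pi_pos
  have hinj : Function.Injective (fun m : ℕ => 2 * Real.pi * ((m + 1 : ℕ) : ℝ) / (a + b)) := by
    intro m n hmn
    have h1 : 2 * Real.pi * ((m + 1 : ℕ) : ℝ) / (a + b) = 2 * Real.pi * ((n + 1 : ℕ) : ℝ) / (a + b) := hmn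
    rw [div_left_inj' hab.ne'] at h1
    have h2 := mul_left_cancel₀ (by positivity : (2 * Real.pi) ≠ 0) h1
    have h3 : m + 1 = n + 1 := by exact_mod_cast h2
    omega
  apply Set.infinite_of_injective_forall_mem hinj
  intro m
  exact generic_mem ha hb (hli_of ha hb h) (Nat.succ_pos m)

theorem density_one (h : LinearIndependent ℚ (figureEight a b ha hb).len)
    (v : (figureEight a b ha hb).V) {ε : ℝ} (hε : 0 < ε) :
    (figureEight a b ha hb).HasDensity ((figureEight a b ha hb).near v 2 ε) 1 := by
  have hnear : (figureEight a b ha hb).near v 2 ε = (figureEight a b ha hb).generic := by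
    ext k
    constructor
    · rintro ⟨f, hf, -⟩
      exact ⟨f, hf⟩
    · rintro ⟨f, hf⟩
      refine ⟨f, hf, ?_⟩
      rw [capacity_eq ha hb hf v, sub_self, abs_zero]
      exact hε
  unfold MetricGraph.HasDensity
  rw [hnear]
  have hmem := generic_mem ha hb (hli_of ha hb h) one_pos
  apply tendsto_const_nhds.congr'
  filter_upwards [eventually_ge_atTop (2 * Real.pi * (1 : ℕ) / (a + b))] with K hK
  have hpos : 0 < ((figureEight a b ha hb).generic ∩ Set.Iic K).ncard := by
    rw [Set.ncard_pos (generic_finite ha hb K)]
    exact ⟨_, hmem, hK⟩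
  have : (((figureEight a b ha hb).generic ∩ Set.Iic K).ncard : ℝ) ≠ 0 := by
    exact_mod_cast hpos.ne'
  rw [div_self this]

end eight

/-- For the figure eight with rationally independent lengths (a standard graph whose vertex has
degree four) all the generic eigenfunctions have wavelength capacity two at the vertex, so that the
limit distribution has an atom of mass one at `2`. -/
theorem result :
    (∃ (a b : ℝ) (ha : 0 < a) (hb : 0 < b), (figureEight a b ha hb).Admissible) ∧
    ∀ (a b : ℝ) (ha : 0 < a) (hb : 0 < b), (figureEight a b ha hb).Admissible →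
      (figureEight a b ha hb).generic.Infinite ∧
      (∀ K, ((figureEight a b ha hb).generic ∩ Set.Iic K).Finite) ∧
      ∀ v, (figureEight a b ha hb).degree v = 4 ∧
        ∀ ε : ℝ, 0 < ε → (figureEight a b ha hb).HasDensity ((figureEight a b ha hb).near v 2 ε) 1 := by
  refine ⟨⟨1, Real.sqrt 2, one_pos, Real.sqrt_pos.mpr (by norm_num), ⟨⟨()⟩, ?_⟩, ?_, ?_⟩, ?_⟩
  · intro u w
    exact Relation.EqvGen.refl _
  · intro v
    right
    rw [degree_eq]
    norm_num
  · refine (Fintype.linearIndependent_iff (ι := Bool) (R := ℚ) (M := ℝ)).mpr ?_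
    intro g hg
    rw [Fintype.sum_bool] at hg
    have h1 : ((g true : ℚ) : ℝ) * Real.sqrt 2 + ((g false : ℚ) : ℝ) * 1 = 0 := by
      have h2 : (g true • Real.sqrt 2 + g false • (1 : ℝ)) = 0 := hg
      rwa [Rat.smul_def, Rat.smul_def] at h2
    have h3 : g true = 0 := by
      by_contra hne
      have hne' : ((g true : ℚ) : ℝ) ≠ 0 := by exact_mod_cast hne
      apply irrational_sqrt_two
      refine ⟨-(g false) / g true, ?_⟩
      push_cast
      rw [div_eq_iff hne']
      linarith
    have h4 : g false = 0 := by
      rw [h3] at h1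
      simpa using h1
    intro i
    cases i
    · exact h4
    · exact h3
  · intro a b ha hb h
    exact ⟨generic_infinite ha hb h.2.2, generic_finite ha hb, fun v => ⟨degree_eq ha hb v,
      fun ε hε => density_one ha hb h.2.2 v hε⟩⟩

end Pool.Agent.Results.MP_ecbb05_mp.FigureEightAtom
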